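import Pool.Agent.Run7.h77.PREDefs
import Pool.Agent.Run7.h77.ComplDefs
import Pool.Agent.Run7.h77.ComplLang

/-!
# Precompact Ramsey expansions from relative completions of cliques
-/

set_option autoImplicit false

namespace Pool.Agent.Results.MP_af4c61_co.CliqueCompletion

open FirstOrder FirstOrder.Language Run7.h77

theorem result (L₀ L : FirstOrder.Language.{0, 0}) (hL₀ : ∀ n, IsEmpty (L₀.Functions n))
    (hL : ∀ n, IsEmpty (L.Functions n)) (_ : Finite (Σ n, L₀.Relations n))
    (_ : Finite (Σ n, L.Relations n)) (N M : Type) [L₀.Structure N] [L₀.Structure M]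
    [L.Structure M] (_ : Countable N) (_ : Countable M)
    (hN : L₀.IsUltrahomogeneous N) (hn : NoAlgebraicity L₀ N) (hP : HasPRE L₀ N)
    (hM : L.IsUltrahomogeneous M) (hage : L₀.age M ⊆ L₀.age N)
    (hC : Run7.h77.CliqueCompletion L₀ L N M) : HasPRE L M := by
  have : L₀.IsRelational := hL₀
  have : L.IsRelational := hL
  exact hasPRE_of_cliqueCompletion hN hn hP hM hage hC

end Pool.Agent.Results.MP_af4c61_co.CliqueCompletion
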