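import Pool.Agent.Run7.h77.PatDefs
import Pool.Agent.Run7.h77.Pattern

/-!
# Ramsey expansions by a linear order from amalgamation patterns
-/

set_option autoImplicit false

namespace Pool.Agent.Results.MP_af4c61_co.PatternAmalgamation

open FirstOrder FirstOrder.Language Run7.h77

theorem result (L : FirstOrder.Language.{0, 0}) (hL : ∀ n, IsEmpty (L.Functions n))
    (_ : Finite (Σ n, L.Relations n)) (M : Type) [L.Structure M] (_ : Countable M)
    (hM : L.IsUltrahomogeneous M) (P : Type) [L.Structure P] (_ : Infinite P) (p q : P)
    (hpq : p ≠ q) (hP : AmalgPattern L M P p q) : RamseyByOrder L M := by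
  have : L.IsRelational := hL
  exact hasOrdered_of_compl hM (compl_of_oneEdge (oneEdge_of_pattern hpq hP))

end Pool.Agent.Results.MP_af4c61_co.PatternAmalgamation
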