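import Pool.Agent.Run7.h77.PREDefs
import Pool.Agent.Run7.h77.SupDefs
import Pool.Agent.Run7.h77.SupLang

/-!
# Precompact Ramsey expansions of generic superpositions

The class of countable ultrahomogeneous structures in finite relational languages that have no
algebraicity and have a precompact Ramsey expansion is closed under generic superpositions.
-/

set_option autoImplicit false

namespace Pool.Agent.Results.MP_af4c61_co.Superposition

open FirstOrder FirstOrder.Language Run7.h77

theorem result (L₁ L₂ : FirstOrder.Language.{0, 0}) (hL₁ : ∀ n, IsEmpty (L₁.Functions n))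
    (hL₂ : ∀ n, IsEmpty (L₂.Functions n)) (_ : Finite (Σ n, L₁.Relations n))
    (_ : Finite (Σ n, L₂.Relations n)) (M₁ M₂ M : Type) [L₁.Structure M₁] [L₂.Structure M₂]
    [L₁.Structure M] [L₂.Structure M] (_ : Countable M₁) (_ : Countable M₂) (_ : Countable M)
    (hu₁ : L₁.IsUltrahomogeneous M₁) (hu₂ : L₂.IsUltrahomogeneous M₂)
    (hn₁ : NoAlgebraicity L₁ M₁) (hn₂ : NoAlgebraicity L₂ M₂)
    (hP₁ : HasPRE L₁ M₁) (hP₂ : HasPRE L₂ M₂)
    (hM : IsGenericSuperposition L₁ L₂ M₁ M₂ M) :
    HasPRE (L₁.sum L₂) M ∧ NoAlgebraicity (L₁.sum L₂) M := by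
  have : L₁.IsRelational := hL₁
  have : L₂.IsRelational := hL₂
  exact ⟨hasPRE_superposition hu₁ hu₂ hn₁ hn₂ hP₁ hP₂ hM,
    noAlg_of_extT hM.ultrahomogeneous
      (extT_superposition hM (extT_of_noAlg hu₁ hn₁) (extT_of_noAlg hu₂ hn₂))⟩

end Pool.Agent.Results.MP_af4c61_co.Superposition
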