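import Pool.Agent.Run7.h77.VR
import Pool.Agent.Run7.h77.PREDefs

/-!
# Precompact Ramsey expansions: reduction to sets of vertices

The question whether every countable ultrahomogeneous structure in a finite relational language has
a precompact Ramsey expansion is equivalent to a statement about sets of points in point transitive
structures without algebraicity: there is no infinite sequence of pairwise disjoint unavoidable
sets.  A set `X` of points of `M` is unavoidable if for some finite substructure of `M` all its
copies in `M` meet `X`.
-/

set_option autoImplicit false

namespace Pool.Agent.Results.MP_af4c61_co.VertexReduction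

open FirstOrder FirstOrder.Language Run7.h77

theorem result :
    (∀ (L : FirstOrder.Language.{0,0}) (_ : ∀ n, IsEmpty (L.Functions n))
      (_ : Finite (Σ n, L.Relations n)) (M : Type) (_ : L.Structure M), Countable M →
        L.IsUltrahomogeneous M → HasPRE L M) ↔
    (∀ (L : FirstOrder.Language.{0,0}) (_ : ∀ n, IsEmpty (L.Functions n))
      (_ : Finite (Σ n, L.Relations n)) (M : Type) (_ : L.Structure M), Countable M →
        L.IsUltrahomogeneous M → PointTransitive L M → NoAlgebraicity L M →
        ¬ ∃ X : ℕ → Set M, Pairwise (fun i j => Disjoint (X i) (X j)) ∧
          ∀ n, Unavoidable L M (X n)) := by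
  constructor
  · intro h L hL hfin M sM hM hu htr _
    have : L.IsRelational := hL
    exact no_seq_of_fd (fd_of_hasPRE (h L hL hfin M sM hM hu)) htr
  · intro h L hL hfin M sM hM hu
    have : L.IsRelational := hL
    rw [hasPRE_iff_fd hu]
    apply fd_of_vertex hu
    rintro k u hui ⟨X, hX, hX'⟩
    have hext := extT_N hu u
    have huN : (LN L k).IsUltrahomogeneous (NT L u) :=
      ultrahomogeneous_of_extT hext (fun V hV f f' hf hf' => Iff.rfl)
    have hcount : Countable (NT L u) := inferInstance
    exact h (LN L k) inferInstance (finite_LN L k) (NT L u) inferInstance hcount huN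
      (transitive_N hu u huN) (noAlg_of_extT huN hext) ⟨X, hX, fun n => unavoidable_of_unav (hX' n)⟩

end Pool.Agent.Results.MP_af4c61_co.VertexReduction
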